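import Pool.Agent.Q195.BL8

set_option autoImplicit false

open Pool.Agent.Q195.BL

namespace Pool.Agent.Results.MP_23899c_an.NotL1Sum

universe u

/-- There is a Dedekind complete projective Banach lattice that is not isometrically lattice
isomorphic to the `ℓ₁`-sum of a sequence of finite-dimensional Banach lattices. -/
theorem result : ∃ (P : Type) (_ : NormedAddCommGroup P) (_ : NormedSpace ℝ P) (_ : Lattice P)
    (_ : IsBanachLattice P), Projective.{u, 0} P ∧ DedekindComplete P ∧ ¬ IsL1SumFD P :=
  ⟨PP, inferInstance, inferInstance, inferInstance, inferInstance, P_projective, P_dedekind,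
    P_not_l1sum⟩

end Pool.Agent.Results.MP_23899c_an.NotL1Sum
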